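import Mathlib

set_option autoImplicit false

open Set

namespace Pool.Agent.Results.MP_773b78_co.ManyMixed

/-- The `i`-th edge of the closed polygonal curve with the vertices `v 0, ..., v (n - 1)`. -/
def edge (n : ℕ) (v : ℕ → ℝ × ℝ) (i : ℕ) : Set (ℝ × ℝ) := segment ℝ (v i) (v ((i + 1) % n))

/-- The closed polygonal curve. -/
def bdry (n : ℕ) (v : ℕ → ℝ × ℝ) : Set (ℝ × ℝ) := {z | ∃ i < n, z ∈ edge n v i}

/-- `v 0, ..., v (n - 1)` are the vertices of a simple `n`-gon (straight angles are allowed): they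
are distinct, consecutive edges have only the common vertex in common, and the other pairs of edges
are disjoint. -/
structure IsSimple (n : ℕ) (v : ℕ → ℝ × ℝ) : Prop where
  inj : ∀ i < n, ∀ j < n, v i = v j → i = j
  adj : ∀ i < n, edge n v i ∩ edge n v ((i + 1) % n) = {v ((i + 1) % n)}
  disj : ∀ i < n, ∀ j < n, i ≠ j → j ≠ (i + 1) % n → i ≠ (j + 1) % n →
    Disjoint (edge n v i) (edge n v j)

/-- No three consecutive vertices are collinear. -/
def NoStraight (n : ℕ) (v : ℕ → ℝ × ℝ) : Prop :=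
  ∀ i < n, ¬ Collinear ℝ {v i, v ((i + 1) % n), v ((i + 2) % n)}

/-- The interior of the polygon: the bounded part of the complement of the curve. -/
def inside (n : ℕ) (v : ℕ → ℝ × ℝ) : Set (ℝ × ℝ) :=
  {z | z ∉ bdry n v ∧ Bornology.IsBounded (connectedComponentIn (bdry n v)ᶜ z)}

/-- The exterior of the polygon. -/
def outside (n : ℕ) (v : ℕ → ℝ × ℝ) : Set (ℝ × ℝ) :=
  {z | z ∉ bdry n v ∧ ¬ Bornology.IsBounded (connectedComponentIn (bdry n v)ᶜ z)}

/-- The diagonals are the pairs `j < k` of non-adjacent vertices. -/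
def IsDiagonal (n j k : ℕ) : Prop := j + 1 < k ∧ k < n ∧ ¬ (j = 0 ∧ k = n - 1)

/-- The diagonal is mixed: neither interior nor exterior. -/
def Mixed (n : ℕ) (v : ℕ → ℝ × ℝ) (j k : ℕ) : Prop :=
  ¬ openSegment ℝ (v j) (v k) ⊆ inside n v ∧ ¬ openSegment ℝ (v j) (v k) ⊆ outside n v

/-- The number of the mixed diagonals. -/
noncomputable def numMixed (n : ℕ) (v : ℕ → ℝ × ℝ) : ℕ :=
  Set.ncard {p : ℕ × ℕ | IsDiagonal n p.1 p.2 ∧ Mixed n v p.1 p.2}

/-! ### The example -/

/-- heights -/
noncomputable def h (i : ℕ) : ℝ := if Even i then 1 else 0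

/-- the polygon: a zigzag `0, ..., m` and an apex -/
noncomputable def P (m i : ℕ) : ℝ × ℝ := if i ≤ m then ((i : ℝ), h i) else ((m : ℝ) + 3, 2)

theorem h_even {i : ℕ} (hi : Even i) : h i = 1 := if_pos hi
theorem h_odd {i : ℕ} (hi : ¬ Even i) : h i = 0 := if_neg hi
theorem h_succ (i : ℕ) : h (i + 1) = 1 - h i := by
  unfold h
  by_cases hi : Even i
  · rw [if_neg (by rw [Nat.even_add_one]; simpa using hi), if_pos hi]; norm_num
  · rw [if_pos (by rw [Nat.even_add_one]; exact hi), if_neg hi]; norm_num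
theorem h_cases (i : ℕ) : h i = 0 ∨ h i = 1 := by
  unfold h; split_ifs <;> simp
theorem h_nonneg (i : ℕ) : 0 ≤ h i := by rcases h_cases i with e | e <;> rw [e] <;> norm_num
theorem h_le (i : ℕ) : h i ≤ 1 := by rcases h_cases i with e | e <;> rw [e] <;> norm_num

theorem P_le {m i : ℕ} (hi : i ≤ m) : P m i = ((i : ℝ), h i) := if_pos hi
theorem P_apex (m : ℕ) : P m (m + 1) = ((m : ℝ) + 3, 2) := if_neg (by omega)

theorem mem_seg {a b z : ℝ × ℝ} : z ∈ segment ℝ a b ↔ ∃ t : ℝ, 0 ≤ t ∧ t ≤ 1 ∧
    z.1 = (1 - t) * a.1 + t * b.1 ∧ z.2 = (1 - t) * a.2 + t * b.2 := by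
  rw [segment_eq_image]
  constructor
  · rintro ⟨t, ⟨h0, h1⟩, rfl⟩
    exact ⟨t, h0, h1, by simp, by simp⟩
  · rintro ⟨t, h0, h1, e1, e2⟩
    exact ⟨t, ⟨h0, h1⟩, by ext <;> simp [e1, e2]⟩

theorem mem_oseg {a b z : ℝ × ℝ} (t : ℝ) (h0 : 0 < t) (h1 : t < 1)
    (e1 : z.1 = (1 - t) * a.1 + t * b.1) (e2 : z.2 = (1 - t) * a.2 + t * b.2) :
    z ∈ openSegment ℝ a b := by
  rw [openSegment_eq_image]
  exact ⟨t, ⟨h0, h1⟩, by ext <;> simp [e1, e2]⟩

/-- a diagonal whose open segment meets the boundary is mixed -/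
theorem mixed_of_meet {n : ℕ} {v : ℕ → ℝ × ℝ} {j k : ℕ} {z : ℝ × ℝ}
    (hz : z ∈ openSegment ℝ (v j) (v k)) (hb : z ∈ bdry n v) : Mixed n v j k :=
  ⟨fun hs => (hs hz).1 hb, fun hs => (hs hz).1 hb⟩

/-! edges of the example, `n = m + 2` -/

theorem mod1 {m i : ℕ} (hi : i ≤ m) : (i + 1) % (m + 2) = i + 1 := Nat.mod_eq_of_lt (by omega)
theorem mod2 (m : ℕ) : (m + 1 + 1) % (m + 2) = 0 := Nat.mod_self _

/-- chain edges -/
theorem edge_chain {m i : ℕ} (hi : i < m) {z : ℝ × ℝ} : z ∈ edge (m + 2) (P m) i ↔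
    ∃ t : ℝ, 0 ≤ t ∧ t ≤ 1 ∧ z.1 = i + t ∧ z.2 = (1 - t) * h i + t * (1 - h i) := by
  unfold edge
  rw [mod1 hi.le, P_le hi.le, P_le (by omega : i + 1 ≤ m), mem_seg, h_succ]
  constructor
  · rintro ⟨t, h0, h1, e1, e2⟩
    refine ⟨t, h0, h1, ?_, e2⟩
    rw [e1]; push_cast; ring
  · rintro ⟨t, h0, h1, e1, e2⟩
    refine ⟨t, h0, h1, ?_, e2⟩
    rw [e1]; push_cast; ring

theorem edge_right {m : ℕ} {z : ℝ × ℝ} : z ∈ edge (m + 2) (P m) m ↔
    ∃ t : ℝ, 0 ≤ t ∧ t ≤ 1 ∧ z.1 = m + 3 * t ∧ z.2 = (1 - t) * h m + 2 * t := by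
  unfold edge
  rw [mod1 le_rfl, P_le le_rfl, P_apex, mem_seg]
  constructor
  · rintro ⟨t, h0, h1, e1, e2⟩
    refine ⟨t, h0, h1, ?_, ?_⟩
    · rw [e1]; ring
    · rw [e2]; ring
  · rintro ⟨t, h0, h1, e1, e2⟩
    refine ⟨t, h0, h1, ?_, ?_⟩
    · rw [e1]; ring
    · rw [e2]; ring

theorem edge_top {m : ℕ} {z : ℝ × ℝ} : z ∈ edge (m + 2) (P m) (m + 1) ↔
    ∃ t : ℝ, 0 ≤ t ∧ t ≤ 1 ∧ z.1 = (m + 3) * t ∧ z.2 = 1 + t := by
  unfold edge
  have h00 : h 0 = 1 := h_even (by decide)
  rw [mod2, P_apex, P_le (Nat.zero_le m), mem_seg, h00]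
  constructor
  · rintro ⟨t, h0, h1, e1, e2⟩
    refine ⟨1 - t, by linarith, by linarith, ?_, ?_⟩
    · rw [e1]; push_cast; ring
    · rw [e2]; ring
  · rintro ⟨t, h0, h1, e1, e2⟩
    refine ⟨1 - t, by linarith, by linarith, ?_, ?_⟩
    · rw [e1]; push_cast; ring
    · rw [e2]; ring

theorem chain_x {m i : ℕ} (hi : i < m) {z : ℝ × ℝ} (hz : z ∈ edge (m + 2) (P m) i) :
    (i : ℝ) ≤ z.1 ∧ z.1 ≤ i + 1 ∧ z.2 ≤ 1 := by
  obtain ⟨t, h0, h1, e1, e2⟩ := (edge_chain hi).1 hz
  refine ⟨by rw [e1]; linarith, by rw [e1]; linarith, ?_⟩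
  rw [e2]
  rcases h_cases i with e | e <;> rw [e] <;> linarith

theorem chain_end {m i : ℕ} (hi : i < m) {z : ℝ × ℝ} (hz : z ∈ edge (m + 2) (P m) i)
    (hx : (i : ℝ) + 1 ≤ z.1) : z = P m (i + 1) := by
  obtain ⟨t, h0, h1, e1, e2⟩ := (edge_chain hi).1 hz
  have ht : t = 1 := by linarith
  rw [P_le (by omega), h_succ]
  ext
  · rw [e1, ht]; push_cast; ring
  · rw [e2, ht]; ring

theorem chain_start {m i : ℕ} (hi : i < m) {z : ℝ × ℝ} (hz : z ∈ edge (m + 2) (P m) i)
    (hx : z.1 ≤ (i : ℝ)) : z = P m i := by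
  obtain ⟨t, h0, h1, e1, e2⟩ := (edge_chain hi).1 hz
  have ht : t = 0 := by linarith
  rw [P_le hi.le]
  ext
  · rw [e1, ht]; push_cast; ring
  · rw [e2, ht]; ring

/-- the vertices are on the edges -/
theorem left_mem (n : ℕ) (v : ℕ → ℝ × ℝ) (i : ℕ) : v i ∈ edge n v i := left_mem_segment ℝ _ _
theorem right_mem (n : ℕ) (v : ℕ → ℝ × ℝ) (i : ℕ) : v ((i + 1) % n) ∈ edge n v i :=
  right_mem_segment ℝ _ _

theorem right_start {m : ℕ} {z : ℝ × ℝ} (hz : z ∈ edge (m + 2) (P m) m) (hx : z.1 ≤ m) :
    z = P m m := by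
  obtain ⟨t, h0, h1, e1, e2⟩ := edge_right.1 hz
  have ht : t = 0 := by linarith
  rw [P_le le_rfl]
  ext
  · rw [e1, ht]; ring
  · rw [e2, ht]; ring

theorem right_x {m : ℕ} {z : ℝ × ℝ} (hz : z ∈ edge (m + 2) (P m) m) : (m : ℝ) ≤ z.1 := by
  obtain ⟨t, h0, h1, e1, e2⟩ := edge_right.1 hz
  rw [e1]; linarith

theorem top_le {m : ℕ} {z : ℝ × ℝ} (hz : z ∈ edge (m + 2) (P m) (m + 1)) (hy : z.2 ≤ 1) :
    z = P m 0 ∧ z.1 = 0 := by
  obtain ⟨t, h0, h1, e1, e2⟩ := edge_top.1 hz
  have ht : t = 0 := by linarith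
  have h00 : h 0 = 1 := h_even (by decide)
  rw [P_le (Nat.zero_le m), h00]
  refine ⟨?_, by rw [e1, ht]; ring⟩
  ext
  · rw [e1, ht]; push_cast; ring
  · rw [e2, ht]; ring

theorem right_top {m : ℕ} (hm : 1 ≤ m) {z : ℝ × ℝ} (hz : z ∈ edge (m + 2) (P m) m)
    (hz' : z ∈ edge (m + 2) (P m) (m + 1)) : z = P m (m + 1) := by
  obtain ⟨t, h0, h1, e1, e2⟩ := edge_right.1 hz
  obtain ⟨s, s0, s1, f1, f2⟩ := edge_top.1 hz'
  have hm' : (1 : ℝ) ≤ m := by exact_mod_cast hm
  have hh := h_le m
  have ht : t = 1 := by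
    by_contra hne
    have hlt : 0 < 1 - t := by
      rcases lt_or_eq_of_le h1 with h | h
      · linarith
      · exact absurd h hne
    have k1 : (m : ℝ) + 3 * t = (m + 3) * s := by rw [← e1, f1]
    have k2 : (1 - t) * h m + 2 * t = 1 + s := by rw [← e2, f2]
    have k3 : ((m : ℝ) + 3) * (1 - s) = 3 * (1 - t) := by linarith
    have k4 : 1 - s = (2 - h m) * (1 - t) := by linarith
    rw [k4] at k3
    have k5 : ((m : ℝ) + 3) * (2 - h m) = 3 := by
      have : (((m : ℝ) + 3) * (2 - h m) - 3) * (1 - t) = 0 := by linarith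
      rcases mul_eq_zero.1 this with h | h
      · linarith
      · linarith
    nlinarith
  rw [P_apex]
  ext
  · rw [e1, ht]; ring
  · rw [e2, ht]; ring

theorem cross_zero {a b c : ℝ × ℝ} (hc : Collinear ℝ {a, b, c}) :
    (b.1 - a.1) * (c.2 - a.2) - (b.2 - a.2) * (c.1 - a.1) = 0 := by
  rw [collinear_iff_of_mem (p₀ := a) (by simp)] at hc
  obtain ⟨v, hv⟩ := hc
  obtain ⟨r, hr⟩ := hv b (by simp)
  obtain ⟨s, hs⟩ := hv c (by simp)
  rw [hr, hs]
  simp only [vadd_eq_add, Prod.fst_add, Prod.snd_add, Prod.smul_fst, Prod.smul_snd, smul_eq_mul]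
  ring

theorem disj_lt {m i j : ℕ} (hij : i < j) (hj : j < m + 2)
    (h1 : j ≠ (i + 1) % (m + 2)) (h2 : i ≠ (j + 1) % (m + 2)) :
    Disjoint (edge (m + 2) (P m) i) (edge (m + 2) (P m) j) := by
  rw [mod1 (by omega)] at h1
  rw [Set.disjoint_left]
  intro z hz hz'
  rcases lt_trichotomy j m with hjm | hjm | hjm
  · have a1 := (chain_x (by omega : i < m) hz).2.1
    have a2 := (chain_x hjm hz').1
    have : ((i : ℝ) + 1) + 1 ≤ j := by exact_mod_cast (by omega : i + 1 + 1 ≤ j)
    linarith
  · subst hjm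
    have a1 := (chain_x (by omega : i < j) hz).2.1
    have a2 := right_x hz'
    have : ((i : ℝ) + 1) + 1 ≤ j := by exact_mod_cast (by omega : i + 1 + 1 ≤ j)
    linarith
  · have hjm' : j = m + 1 := by omega
    subst hjm'
    rw [mod2] at h2
    have a1 := chain_x (by omega : i < m) hz
    have a2 := top_le hz' a1.2.2
    have : (1 : ℝ) ≤ i := by exact_mod_cast (by omega : 1 ≤ i)
    linarith [a1.1, a2.2]

theorem isSimple {m : ℕ} (hm : 1 ≤ m) : IsSimple (m + 2) (P m) where
  inj := by
    intro i hi j hj he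
    rcases Nat.lt_or_ge m i with him | him
    · rcases Nat.lt_or_ge m j with hjm | hjm
      · omega
      · have hi' : i = m + 1 := by omega
        subst hi'
        rw [P_apex, P_le hjm] at he
        have := congrArg Prod.fst he
        simp only at this
        have hj' : (j : ℝ) ≤ m := by exact_mod_cast hjm
        linarith
    · rcases Nat.lt_or_ge m j with hjm | hjm
      · have hj' : j = m + 1 := by omega
        subst hj'
        rw [P_apex, P_le him] at he
        have := congrArg Prod.fst he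
        simp only at this
        have hj' : (i : ℝ) ≤ m := by exact_mod_cast him
        linarith
      · rw [P_le him, P_le hjm] at he
        have := congrArg Prod.fst he
        simp only at this
        exact_mod_cast this
  adj := by
    intro i hi
    apply Set.Subset.antisymm
    · rintro z ⟨hz, hz'⟩
      rw [Set.mem_singleton_iff]
      rcases lt_trichotomy i m with him | him | him
      · rw [mod1 him.le] at hz' ⊢
        apply chain_end him hz
        rcases Nat.lt_or_ge (i + 1) m with h1 | h1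
        · have := (chain_x h1 hz').1
          push_cast at this
          exact this
        · have h2 : i + 1 = m := by omega
          rw [h2] at hz'
          have := right_x hz'
          rw [← h2] at this
          push_cast at this
          exact this
      · subst him
        rw [mod1 le_rfl] at hz' ⊢
        exact right_top hm hz hz'
      · have him' : i = m + 1 := by omega
        subst him'
        rw [mod2] at hz' ⊢
        exact (top_le hz (chain_x (by omega) hz').2.2).1
    · rintro z rfl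
      exact ⟨right_mem _ _ _, left_mem _ _ _⟩
  disj := by
    intro i hi j hj hij h1 h2
    rcases lt_or_gt_of_ne hij with h | h
    · exact disj_lt h hj h1 h2
    · exact (disj_lt h hi h2 h1).symm

theorem noStraight {m : ℕ} (hm : 1 ≤ m) : NoStraight (m + 2) (P m) := by
    intro i hi hc
    have hcr := cross_zero hc
    rcases lt_trichotomy i m with him | him | him
    · rcases Nat.lt_or_ge (i + 1) m with h1 | h1
      · rw [mod1 him.le, Nat.mod_eq_of_lt (by omega : i + 2 < m + 2), P_le him.le,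
          P_le (by omega : i + 1 ≤ m), P_le (by omega : i + 2 ≤ m)] at hcr
        simp only at hcr
        rw [show i + 2 = (i + 1) + 1 from rfl, h_succ (i + 1), h_succ i] at hcr
        push_cast at hcr
        rcases h_cases i with e | e <;> rw [e] at hcr <;> ring_nf at hcr <;> norm_num at hcr
      · have h2 : m = i + 1 := by omega
        subst h2
        rw [mod1 him.le, Nat.mod_eq_of_lt (by omega : i + 2 < i + 1 + 2), P_le him.le,
          P_le le_rfl, show i + 2 = (i + 1) + 1 from rfl, P_apex] at hcr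
        simp only at hcr
        rw [h_succ i] at hcr
        push_cast at hcr
        rcases h_cases i with e | e <;> rw [e] at hcr <;> ring_nf at hcr <;> norm_num at hcr
    · subst him
      have hm' : (1 : ℝ) ≤ i := by exact_mod_cast hm
      have h00 : h 0 = 1 := h_even (by decide)
      rw [mod1 le_rfl, Nat.mod_self, P_le le_rfl, P_apex, P_le (Nat.zero_le i), h00] at hcr
      simp only at hcr
      push_cast at hcr
      have a1 := h_nonneg i
      have a2 := h_le i
      nlinarith
    · have him' : i = m + 1 := by omega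
      subst him'
      have hm' : (1 : ℝ) ≤ m := by exact_mod_cast hm
      have h00 : h 0 = 1 := h_even (by decide)
      have h01 : h 1 = 0 := h_odd (by decide)
      have e3 : (m + 1 + 2) % (m + 2) = 1 := by
        rw [show m + 1 + 2 = 1 + (m + 2) by ring, Nat.add_mod_right]
        exact Nat.mod_eq_of_lt (by omega)
      rw [mod2, e3, P_apex, P_le (Nat.zero_le m), P_le hm, h00, h01] at hcr
      simp only at hcr
      push_cast at hcr
      nlinarith

/-- the chords of the zigzag -/
theorem mixed_chain {m i j : ℕ} (hij : i + 3 ≤ j) (hj : j ≤ m) : Mixed (m + 2) (P m) i j := by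
  have hd : (3 : ℝ) ≤ (j : ℝ) - i := by
    have : ((i : ℝ) + 3) ≤ j := by exact_mod_cast hij
    linarith
  by_cases hpar : h j = h i
  · -- the chord contains the vertex `i + 2`
    apply mixed_of_meet (z := P m (i + 2)) (v := P m) (n := m + 2)
    · rw [P_le (by omega : i ≤ m), P_le hj, P_le (by omega : i + 2 ≤ m)]
      apply mem_oseg (2 / ((j : ℝ) - i)) (by positivity) (by rw [div_lt_one (by linarith)]; linarith)
      · simp only
        have : (j : ℝ) - i ≠ 0 := by linarith
        field_simp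
        push_cast
        ring
      · simp only
        rw [hpar, show i + 2 = (i + 1) + 1 from rfl, h_succ, h_succ]
        ring
    · exact ⟨i + 2, by omega, left_mem _ _ _⟩
  · have hj' : h j = 1 - h i := by
      rcases h_cases i with e | e
      · rcases h_cases j with f | f
        · exact absurd (by rw [e, f]) hpar
        · rw [e, f]; norm_num
      · rcases h_cases j with f | f
        · rw [e, f]; norm_num
        · exact absurd (by rw [e, f]) hpar
    have hpos : 0 < (j : ℝ) - i + 1 := by linarith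
    set t : ℝ := 2 / ((j : ℝ) - i + 1) with ht
    have ht0 : 0 < t := by positivity
    have ht1 : t < 1 := by rw [ht, div_lt_one hpos]; linarith
    have hte : t * ((j : ℝ) - i + 1) = 2 := by rw [ht]; field_simp
    apply mixed_of_meet (z := ((i : ℝ) + t * ((j : ℝ) - i), (1 - t) * h i + t * h j)) (v := P m)
      (n := m + 2)
    · rw [P_le (by omega : i ≤ m), P_le hj]
      apply mem_oseg t ht0 ht1
      · simp only
        ring
      · rfl
    · refine ⟨i + 1, by omega, ?_⟩
      rw [edge_chain (by omega : i + 1 < m)]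
      refine ⟨1 - t, by linarith, by linarith, ?_, ?_⟩
      · simp only
        push_cast
        linarith
      · simp only
        rw [hj', h_succ]
        ring

/-- the chords from the apex to the odd vertices -/
theorem mixed_apex {m i : ℕ} (hi : ¬ Even i) (him : i + 2 ≤ m) :
    Mixed (m + 2) (P m) i (m + 1) := by
  have hd : (2 : ℝ) ≤ (m : ℝ) - i := by
    have : ((i : ℝ) + 2) ≤ m := by exact_mod_cast him
    linarith
  have hpos : 0 < (m : ℝ) - i + 5 := by linarith
  set t : ℝ := 2 / ((m : ℝ) - i + 5) with ht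
  have ht0 : 0 < t := by positivity
  have ht1 : t < 1 / 2 := by rw [ht, div_lt_iff₀ hpos]; linarith
  have hte : t * ((m : ℝ) - i + 5) = 2 := by rw [ht]; field_simp
  apply mixed_of_meet (z := ((i : ℝ) + t * ((m : ℝ) - i + 3), 2 * t)) (v := P m) (n := m + 2)
  · rw [P_le (by omega : i ≤ m), P_apex, h_odd hi]
    apply mem_oseg t ht0 (by linarith)
    · simp only
      ring
    · simp only
      ring
  · refine ⟨i + 1, by omega, ?_⟩
    rw [edge_chain (by omega : i + 1 < m)]
    refine ⟨1 - 2 * t, by linarith, by linarith, ?_, ?_⟩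
    · simp only
      push_cast
      linarith
    · simp only
      rw [h_succ, h_odd hi]
      ring

theorem count (k : ℕ) : (k + 1) ^ 2 / 2 ≤ numMixed (k + 4) (P (k + 2)) := by
  classical
  let T1 : Finset (ℕ × ℕ) := ((Finset.range (k + 1)).sigma (fun s => Finset.range s)).image
    (fun x : (_ : ℕ) × ℕ => (x.2, x.1 + 2))
  let T2 : Finset (ℕ × ℕ) := (Finset.range ((k + 1) / 2)).image (fun q : ℕ => (2 * q + 1, k + 3))
  have c1 : T1.card * 2 = (k + 1) * k := by
    have : T1.card = ((Finset.range (k + 1)).sigma (fun s => Finset.range s)).card := by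
      apply Finset.card_image_of_injective
      rintro ⟨a, b⟩ ⟨c, d⟩ he
      simp only [Prod.mk.injEq] at he
      obtain ⟨h1, h2⟩ := he
      have h3 : a = c := by omega
      subst h3
      subst h1
      rfl
    rw [this, Finset.card_sigma]
    simp only [Finset.card_range]
    rw [Finset.sum_range_id_mul_two]
    simp
  have c2 : T2.card = (k + 1) / 2 := by
    rw [Finset.card_image_of_injective, Finset.card_range]
    intro a b he
    simp only [Prod.mk.injEq] at he
    omega
  have hdisj : Disjoint T1 T2 := by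
    rw [Finset.disjoint_left]
    intro z hz hz'
    simp only [T1, T2, Finset.mem_image, Finset.mem_sigma, Finset.mem_range] at hz hz'
    obtain ⟨x, ⟨hx1, hx2⟩, rfl⟩ := hz
    obtain ⟨q, hq, he⟩ := hz'
    simp only [Prod.mk.injEq] at he
    omega
  have hfin : {p : ℕ × ℕ | IsDiagonal (k + 4) p.1 p.2 ∧ Mixed (k + 4) (P (k + 2)) p.1 p.2}.Finite := by
    apply Set.Finite.subset ((Finset.range (k + 4) ×ˢ Finset.range (k + 4)).finite_toSet)
    rintro ⟨a, b⟩ ⟨hd, -⟩
    unfold IsDiagonal at hd
    simp only [Finset.coe_product, Set.mem_prod, Finset.mem_coe, Finset.mem_range]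
    simp only at hd
    omega
  have hsub : ((T1 ∪ T2 : Finset (ℕ × ℕ)) : Set (ℕ × ℕ)) ⊆
      {p : ℕ × ℕ | IsDiagonal (k + 4) p.1 p.2 ∧ Mixed (k + 4) (P (k + 2)) p.1 p.2} := by
    intro z hz
    rw [Finset.mem_coe, Finset.mem_union] at hz
    rcases hz with hz | hz
    · simp only [T1, Finset.mem_image, Finset.mem_sigma, Finset.mem_range] at hz
      obtain ⟨x, ⟨hx1, hx2⟩, rfl⟩ := hz
      refine ⟨?_, mixed_chain (m := k + 2) (by simp only; omega) (by simp only; omega)⟩
      unfold IsDiagonal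
      simp only
      omega
    · simp only [T2, Finset.mem_image, Finset.mem_range] at hz
      obtain ⟨q, hq, rfl⟩ := hz
      refine ⟨?_, mixed_apex (m := k + 2) (by simp only; rw [Nat.even_add_one]; simp) (by simp only; omega)⟩
      unfold IsDiagonal
      simp only
      omega
  have hle : (T1 ∪ T2).card ≤ numMixed (k + 4) (P (k + 2)) := by
    unfold numMixed
    rw [← Set.ncard_coe_finset]
    exact Set.ncard_le_ncard hsub hfin
  rw [Finset.card_union_of_disjoint hdisj, c2] at hle
  refine le_trans ?_ hle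
  have e1 : (k + 1) ^ 2 = (k + 1) * k + (k + 1) := by ring
  rw [e1, ← c1]
  omega

/-! ### The example with straight angles -/

/-- a triangle with additional vertices on one side -/
noncomputable def Q (m i : ℕ) : ℝ × ℝ := if i ≤ m then ((i : ℝ), 0) else (0, 1)

theorem Q_le {m i : ℕ} (hi : i ≤ m) : Q m i = ((i : ℝ), 0) := if_pos hi
theorem Q_apex (m : ℕ) : Q m (m + 1) = (0, 1) := if_neg (by omega)

theorem qedge_chain {m i : ℕ} (hi : i < m) {z : ℝ × ℝ} (hz : z ∈ edge (m + 2) (Q m) i) :
    (i : ℝ) ≤ z.1 ∧ z.1 ≤ i + 1 ∧ z.2 = 0 := by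
  unfold edge at hz
  rw [mod1 hi.le, Q_le hi.le, Q_le (by omega : i + 1 ≤ m), mem_seg] at hz
  obtain ⟨t, h0, h1, e1, e2⟩ := hz
  simp only at e1 e2
  push_cast at e1
  refine ⟨by linarith, by linarith, by rw [e2]; ring⟩

theorem qedge_right {m : ℕ} {z : ℝ × ℝ} (hz : z ∈ edge (m + 2) (Q m) m) :
    ∃ t : ℝ, 0 ≤ t ∧ t ≤ 1 ∧ z.1 = (1 - t) * m ∧ z.2 = t := by
  unfold edge at hz
  rw [mod1 le_rfl, Q_le le_rfl, Q_apex, mem_seg] at hz
  obtain ⟨t, h0, h1, e1, e2⟩ := hz
  simp only at e1 e2
  exact ⟨t, h0, h1, by rw [e1]; ring, by rw [e2]; ring⟩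

theorem qedge_top {m : ℕ} {z : ℝ × ℝ} (hz : z ∈ edge (m + 2) (Q m) (m + 1)) : z.1 = 0 := by
  unfold edge at hz
  rw [mod2, Q_apex, Q_le (Nat.zero_le m), mem_seg] at hz
  obtain ⟨t, h0, h1, e1, e2⟩ := hz
  simp only at e1
  rw [e1]; push_cast; ring

theorem qdisj_lt {m i j : ℕ} (hij : i < j) (hj : j < m + 2)
    (h1 : j ≠ (i + 1) % (m + 2)) (h2 : i ≠ (j + 1) % (m + 2)) :
    Disjoint (edge (m + 2) (Q m) i) (edge (m + 2) (Q m) j) := by
  rw [mod1 (by omega)] at h1
  rw [Set.disjoint_left]
  intro z hz hz'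
  rcases lt_trichotomy j m with hjm | hjm | hjm
  · have a1 := (qedge_chain (by omega : i < m) hz).2.1
    have a2 := (qedge_chain hjm hz').1
    have : ((i : ℝ) + 1) + 1 ≤ j := by exact_mod_cast (by omega : i + 1 + 1 ≤ j)
    linarith
  · subst hjm
    have a1 := qedge_chain (by omega : i < j) hz
    obtain ⟨t, h0, ht1, e1, e2⟩ := qedge_right hz'
    have : ((i : ℝ) + 1) + 1 ≤ j := by exact_mod_cast (by omega : i + 1 + 1 ≤ j)
    have ht : t = 0 := by rw [← e2]; exact a1.2.2
    rw [ht] at e1
    linarith [a1.2.1]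
  · have hjm' : j = m + 1 := by omega
    subst hjm'
    rw [mod2] at h2
    have a1 := qedge_chain (by omega : i < m) hz
    have a2 := qedge_top hz'
    have : (1 : ℝ) ≤ i := by exact_mod_cast (by omega : 1 ≤ i)
    linarith [a1.1]

theorem qIsSimple {m : ℕ} (hm : 1 ≤ m) : IsSimple (m + 2) (Q m) where
  inj := by
    intro i hi j hj he
    rcases Nat.lt_or_ge m i with him | him
    · rcases Nat.lt_or_ge m j with hjm | hjm
      · omega
      · have hi' : i = m + 1 := by omega
        subst hi'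
        rw [Q_apex, Q_le hjm] at he
        have := congrArg Prod.snd he
        simp at this
    · rcases Nat.lt_or_ge m j with hjm | hjm
      · have hj' : j = m + 1 := by omega
        subst hj'
        rw [Q_apex, Q_le him] at he
        have := congrArg Prod.snd he
        simp at this
      · rw [Q_le him, Q_le hjm] at he
        have := congrArg Prod.fst he
        simp only at this
        exact_mod_cast this
  adj := by
    intro i hi
    apply Set.Subset.antisymm
    · rintro z ⟨hz, hz'⟩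
      rw [Set.mem_singleton_iff]
      rcases lt_trichotomy i m with him | him | him
      · rw [mod1 him.le] at hz' ⊢
        have a1 := qedge_chain him hz
        rw [Q_le (by omega : i + 1 ≤ m)]
        have hx : (i : ℝ) + 1 ≤ z.1 := by
          rcases Nat.lt_or_ge (i + 1) m with h1 | h1
          · have := (qedge_chain h1 hz').1
            push_cast at this
            exact this
          · have h2 : i + 1 = m := by omega
            rw [h2] at hz'
            obtain ⟨t, h0, ht1, e1, e2⟩ := qedge_right hz'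
            have ht : t = 0 := by rw [← e2]; exact a1.2.2
            rw [ht, ← h2] at e1
            push_cast at e1
            linarith
        ext
        · simp only
          push_cast
          linarith [a1.2.1]
        · exact a1.2.2
      · subst him
        rw [mod1 le_rfl] at hz' ⊢
        obtain ⟨t, h0, ht1, e1, e2⟩ := qedge_right hz
        have a2 := qedge_top hz'
        have hm' : (i : ℝ) ≠ 0 := by
          have : (1 : ℝ) ≤ i := by exact_mod_cast hm
          linarith
        rw [a2] at e1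
        have ht : t = 1 := by
          rcases mul_eq_zero.1 e1.symm with h | h
          · linarith
          · exact absurd h hm'
        rw [Q_apex]
        ext
        · exact a2
        · rw [e2, ht]
      · have him' : i = m + 1 := by omega
        subst him'
        rw [mod2] at hz' ⊢
        have a1 := qedge_chain (by omega : 0 < m) hz'
        have a2 := qedge_top hz
        rw [Q_le (Nat.zero_le m)]
        ext
        · simp only
          rw [a2]; push_cast; rfl
        · exact a1.2.2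
    · rintro z rfl
      exact ⟨right_mem _ _ _, left_mem _ _ _⟩
  disj := by
    intro i hi j hj hij h1 h2
    rcases lt_or_gt_of_ne hij with h | h
    · exact qdisj_lt h hj h1 h2
    · exact (qdisj_lt h hi h2 h1).symm

theorem qmixed {m i j : ℕ} (hij : i + 2 ≤ j) (hj : j ≤ m) : Mixed (m + 2) (Q m) i j := by
  have hd : (2 : ℝ) ≤ (j : ℝ) - i := by
    have : ((i : ℝ) + 2) ≤ j := by exact_mod_cast hij
    linarith
  apply mixed_of_meet (z := Q m (i + 1)) (v := Q m) (n := m + 2)
  · rw [Q_le (by omega : i ≤ m), Q_le hj, Q_le (by omega : i + 1 ≤ m)]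
    apply mem_oseg (1 / ((j : ℝ) - i)) (by positivity) (by rw [div_lt_one (by linarith)]; linarith)
    · simp only
      have : (j : ℝ) - i ≠ 0 := by linarith
      field_simp
      push_cast
      ring
    · simp only
      ring
  · exact ⟨i + 1, by omega, left_mem _ _ _⟩

theorem qcount (k : ℕ) : (k + 2) * (k + 1) / 2 ≤ numMixed (k + 4) (Q (k + 2)) := by
  classical
  let T1 : Finset (ℕ × ℕ) := ((Finset.range (k + 2)).sigma (fun s => Finset.range s)).image
    (fun x : (_ : ℕ) × ℕ => (x.2, x.1 + 1))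
  have c1 : T1.card * 2 = (k + 2) * (k + 1) := by
    have : T1.card = ((Finset.range (k + 2)).sigma (fun s => Finset.range s)).card := by
      apply Finset.card_image_of_injective
      rintro ⟨a, b⟩ ⟨c, d⟩ he
      simp only [Prod.mk.injEq] at he
      obtain ⟨h1, h2⟩ := he
      have h3 : a = c := by omega
      subst h3
      subst h1
      rfl
    rw [this, Finset.card_sigma]
    simp only [Finset.card_range]
    rw [Finset.sum_range_id_mul_two]
    simp
  have hfin : {p : ℕ × ℕ | IsDiagonal (k + 4) p.1 p.2 ∧ Mixed (k + 4) (Q (k + 2)) p.1 p.2}.Finite := by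
    apply Set.Finite.subset ((Finset.range (k + 4) ×ˢ Finset.range (k + 4)).finite_toSet)
    rintro ⟨a, b⟩ ⟨hd, -⟩
    unfold IsDiagonal at hd
    simp only [Finset.coe_product, Set.mem_prod, Finset.mem_coe, Finset.mem_range]
    simp only at hd
    omega
  have hsub : (T1 : Set (ℕ × ℕ)) ⊆
      {p : ℕ × ℕ | IsDiagonal (k + 4) p.1 p.2 ∧ Mixed (k + 4) (Q (k + 2)) p.1 p.2} := by
    intro z hz
    rw [Finset.mem_coe] at hz
    simp only [T1, Finset.mem_image, Finset.mem_sigma, Finset.mem_range] at hz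
    obtain ⟨x, ⟨hx1, hx2⟩, rfl⟩ := hz
    refine ⟨?_, qmixed (m := k + 2) (by simp only; omega) (by simp only; omega)⟩
    unfold IsDiagonal
    simp only
    omega
  have hle : T1.card ≤ numMixed (k + 4) (Q (k + 2)) := by
    unfold numMixed
    rw [← Set.ncard_coe_finset]
    exact Set.ncard_le_ncard hsub hfin
  refine le_trans ?_ hle
  rw [← c1]
  omega

/-- **Many mixed diagonals.** For every `n ≥ 4` there is a simple `n`-gon without straight angles
with at least `⌊(n - 3)² / 2⌋` mixed diagonals, and there is a simple `n`-gon (with straight angles)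
with at least `(n - 2) (n - 3) / 2` mixed diagonals. -/
theorem result : ∀ n : ℕ, 4 ≤ n →
    (∃ v : ℕ → ℝ × ℝ, IsSimple n v ∧ NoStraight n v ∧ (n - 3) ^ 2 / 2 ≤ numMixed n v) ∧
    (∃ v : ℕ → ℝ × ℝ, IsSimple n v ∧ (n - 2) * (n - 3) / 2 ≤ numMixed n v) := by
  intro n hn
  obtain ⟨k, rfl⟩ := Nat.exists_eq_add_of_le hn
  refine ⟨⟨P (k + 2), ?_, ?_, ?_⟩, ⟨Q (k + 2), ?_, ?_⟩⟩
  · have := isSimple (m := k + 2) (by omega)
    rw [show 4 + k = k + 2 + 2 by ring]
    exact this
  · have := noStraight (m := k + 2) (by omega)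
    rw [show 4 + k = k + 2 + 2 by ring]
    exact this
  · have := count k
    rw [show 4 + k = k + 4 by ring, show k + 4 - 3 = k + 1 by omega]
    exact this
  · have := qIsSimple (m := k + 2) (by omega)
    rw [show 4 + k = k + 2 + 2 by ring]
    exact this
  · have := qcount k
    rw [show 4 + k = k + 4 by ring, show k + 4 - 3 = k + 1 by omega,
      show k + 4 - 2 = k + 2 by omega]
    exact this

end Pool.Agent.Results.MP_773b78_co.ManyMixed
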